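import Pool.Agent.Lib.MP_806e08_lc.Defs
import Pool.Agent.Lib.MP_806e08_lc.Bip
import Pool.Agent.Lib.MP_806e08_lc.Intv
import Pool.Agent.Lib.MP_806e08_lc.Jobs

namespace Pool.Agent.Results.MP_806e08_lc.Competitive

open Pool.Agent.Lib.MP_806e08_lc

/-- A deterministic on-line algorithm whose maximal flow time is at most `(24 v + 21) A` on every
interval or bipartite conflict graph with `v` vertices. -/
theorem result :
    ∃ alg : (v : ℕ) → SimpleGraph (Fin v) → OnlineRule (Fin v),
      ∀ (v : ℕ) (G : SimpleGraph (Fin v)), IsIntervalGraph G ∨ G.IsBipartite →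
        ∀ J : Finset (Job (Fin v)), ∃ s : Job (Fin v) → ℤ,
          Follows (alg v G) J s ∧ IsSchedule G J s ∧
            ∀ s' : Job (Fin v) → ℤ, IsSchedule G J s' →
              maxFlow J s ≤ (24 * v + 21) * maxFlow J s' := by
  have key : ∀ (v : ℕ) (G : SimpleGraph (Fin v)), ∃ rule : OnlineRule (Fin v),
      IsIntervalGraph G ∨ G.IsBipartite →
        ∀ J : Finset (Job (Fin v)), ∃ s : Job (Fin v) → ℤ,
          Follows rule J s ∧ IsSchedule G J s ∧
            ∀ s' : Job (Fin v) → ℤ, IsSchedule G J s' →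
              maxFlow J s ≤ (24 * v + 21) * maxFlow J s' := by
    intro v G
    by_cases hG : IsIntervalGraph G ∨ G.IsBipartite
    · have h : ∃ c, c ≤ 6 * v + 5 ∧ ∃ alg, CountAlg G c alg := by
        rcases hG with hG | hG
        · exact ⟨2 * Fintype.card (Fin v), by simp; omega, interval_countAlg hG⟩
        · exact ⟨6 * Fintype.card (Fin v) + 5, by simp, bip_countAlg hG⟩
      obtain ⟨c, hc, alg, halg⟩ := h
      obtain ⟨rule, hrule⟩ := exists_rule halg
      refine ⟨rule, fun _ J => ?_⟩
      obtain ⟨s, h1, h2, h3⟩ := hrule J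
      exact ⟨s, h1, h2, fun s' hs' => (h3 s' hs').trans (Nat.mul_le_mul_right _ (by omega))⟩
    · exact ⟨fun _ _ => ∅, fun h => (hG h).elim⟩
  choose alg halg using key
  exact ⟨alg, halg⟩

end Pool.Agent.Results.MP_806e08_lc.Competitive
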