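import Pool.Agent.Lib.MP_806e08_lc.Lower

set_option autoImplicit false

namespace Pool.Agent.Results.MP_806e08_lc.NoBound

open MeasureTheory Pool.Agent.Lib.MP_806e08_lc

/-- If the conflict graph has vertices `q, p, y, r, s` that induce a house or a five-cycle and a
vertex `w` adjacent to all five, then every randomized on-line algorithm has expected maximal flow
time at least `F` on some set of at most `84 F ^ 2` jobs whose optimum is at most two. -/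
theorem result {V : Type} (G : SimpleGraph V) (q p y r s w : V)
    (h1 : ¬ G.Adj q p ∧ ¬ G.Adj p y ∧ ¬ G.Adj y r ∧ ¬ G.Adj r s)
    (h2 : G.Adj q y ∧ G.Adj q r ∧ G.Adj p r ∧ G.Adj p s ∧ G.Adj y s)
    (h3 : G.Adj q w ∧ G.Adj p w ∧ G.Adj y w ∧ G.Adj r w ∧ G.Adj s w)
    {Ω : Type} [MeasurableSpace Ω] (μ : Measure Ω) [IsProbabilityMeasure μ]
    (rule : Ω → OnlineRule V) (σ : Ω → Finset (Job V) → Job V → ℤ)
    (hσ : ∀ ω J, Follows (rule ω) J (σ ω J) ∧ IsSchedule G J (σ ω J))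
    (hm : ∀ J, Measurable fun ω => maxFlow J (σ ω J)) (F : ℕ) :
    ∃ J : Finset (Job V), J.card ≤ 84 * F ^ 2 ∧
      (∃ s' : Job V → ℤ, IsSchedule G J s' ∧ maxFlow J s' ≤ 2) ∧
      (F : ENNReal) ≤ ∫⁻ ω, (maxFlow J (σ ω J) : ENNReal) ∂μ := by
  obtain ⟨a1, a2, a3, a4⟩ := h1
  obtain ⟨b1, b2, b3, b4, b5⟩ := h2
  obtain ⟨c1, c2, c3, c4, c5⟩ := h3
  let v : ℕ → V := fun k => [y, p, r, q, s].getD k w
  have hG : Frame G v := by
    refine ⟨?_, ?_⟩
    · rintro _ _ (⟨rfl, rfl⟩ | ⟨rfl, rfl⟩ | ⟨rfl, rfl⟩ | ⟨rfl, rfl⟩)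
      · exact ⟨fun e : y = p => a1 (e ▸ b1), fun a => a2 a.symm⟩
      · exact ⟨fun e : y = r => a4 (e ▸ b5), a3⟩
      · exact ⟨fun e : p = q => a2 (e ▸ b1), fun a => a1 a.symm⟩
      · exact ⟨fun e : r = s => a3 (e ▸ b5), a4⟩
    · rintro k _ (⟨rfl, rfl⟩ | ⟨rfl, rfl⟩ | ⟨rfl, rfl⟩ | ⟨rfl, rfl⟩ | ⟨rfl, rfl⟩ | ⟨h, rfl⟩)
      exacts [b4, b5, b3, b2.symm, b1.symm, by interval_cases k <;> assumption]
  have hT : (2 * F + 1) % 2 = 1 := by omega
  obtain ⟨B, -, hB⟩ := ENNReal.exists_le_of_sum_le (f := fun _ => (F : ENNReal))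
    (g := fun B => ∫⁻ ω, (maxFlow (jobs v (2 * F + 1) (2 * F) B)
      (σ ω (jobs v (2 * F + 1) (2 * F) B)) : ENNReal) ∂μ)
    (Finset.powerset_nonempty (Finset.range (2 * F))) (by
      refine le_of_le_of_eq ?_ (lintegral_finsetSum _ fun B _ => measurable_from_top.comp (hm _))
      refine le_of_eq_of_le (by rw [lintegral_const, measure_univ, mul_one])
        (lintegral_mono (f := fun _ => ∑ _B ∈ (Finset.range (2 * F)).powerset, (F : ENNReal))
          fun ω => ?_)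
      have := sum_flow (N := 2 * F) hG hT (by omega) (hσ ω)
      rw [mul_assoc, Nat.mul_le_mul_left_iff two_pos, mul_comm] at this
      simp only [Finset.sum_const, Finset.card_powerset, Finset.card_range, nsmul_eq_mul]
      exact_mod_cast this)
  refine ⟨_, ?_, opt_le hG hT B, hB⟩
  classical
  refine Finset.card_image_le.trans ((Finset.card_filter_le _ _).trans ?_)
  simp only [Finset.card_product, Finset.card_range]
  nlinarith [Nat.le_self_pow two_ne_zero F]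

/-- Sanity check: the complement of a path on five vertices plus an isolated vertex has such
vertices. -/
theorem house : ∃ G : SimpleGraph (Fin 6),
    (¬ G.Adj 0 1 ∧ ¬ G.Adj 1 2 ∧ ¬ G.Adj 2 3 ∧ ¬ G.Adj 3 4) ∧
    (G.Adj 0 2 ∧ G.Adj 0 3 ∧ G.Adj 1 3 ∧ G.Adj 1 4 ∧ G.Adj 2 4) ∧
    G.Adj 0 5 ∧ G.Adj 1 5 ∧ G.Adj 2 5 ∧ G.Adj 3 5 ∧ G.Adj 4 5 :=
  ⟨SimpleGraph.fromRel fun a b => a.val + 1 < b.val ∨ b = 5, by
    simp [SimpleGraph.fromRel_adj]⟩

end Pool.Agent.Results.MP_806e08_lc.NoBound
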